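import Pool.Agent.R34.DP.Stm

/-!
# Project DP (MP_04ae38_an): doubling of the claim
-/

set_option autoImplicit false

open MeasureTheory ProbabilityTheory Set Filter
open scoped NNReal ENNReal Topology

namespace R962.DP

open R34.DP

section gen

variable {X Y : Type} [NormedAddCommGroup X] [PartialOrder X] [MeasurableSpace X]
  [NormedAddCommGroup Y]

lemma adm_cont {Z : Type} [PseudoMetricSpace Z] {F : Z → ℝ} (h : Adm F) : Continuous F := by
  obtain ⟨⟨K, hK⟩, -⟩ := h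
  exact hK.continuous

lemma adm_fst {Z W : Type} [PseudoMetricSpace Z] [PseudoMetricSpace W] {F : Z × W → ℝ}
    (h : Adm F) (y : W) : Adm (fun x => F (x, y)) := by
  obtain ⟨⟨K, hK⟩, ⟨B, hB⟩⟩ := h
  refine ⟨⟨K, ?_⟩, ⟨B, fun x => hB _⟩⟩
  apply LipschitzWith.of_dist_le_mul
  intro a b
  refine (hK.dist_le_mul _ _).trans ?_
  rw [Prod.dist_eq]
  simp

lemma adm_swap {Z W : Type} [PseudoMetricSpace Z] [PseudoMetricSpace W] {F : Z × W → ℝ}
    (h : Adm F) : Adm (fun p : W × Z => F (p.2, p.1)) := by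
  obtain ⟨⟨K, hK⟩, ⟨B, hB⟩⟩ := h
  refine ⟨⟨K, ?_⟩, ⟨B, fun x => hB _⟩⟩
  apply LipschitzWith.of_dist_le_mul
  intro a b
  refine (hK.dist_le_mul _ _).trans ?_
  rw [Prod.dist_eq, Prod.dist_eq, max_comm]

lemma adm_snd {Z W : Type} [PseudoMetricSpace Z] [PseudoMetricSpace W] {F : Z × W → ℝ}
    (h : Adm F) (x : Z) : Adm (fun y => F (x, y)) :=
  adm_fst (adm_swap h) x

lemma op_le {μ : Measure X} {T : (X → ℝ) → X → ℝ} {C : ℝ≥0} (hT : GoodOp μ T C)
    {F G : X → ℝ} (hF : Adm F) (hG : Adm G) (d : ℝ) (h : ∀ x, F x ≤ G x + d) (x : X) :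
    T F x ≤ T G x + d := by
  have hG' : Adm (fun x => G x + d) := by
    obtain ⟨⟨K, hK⟩, ⟨B, hB⟩⟩ := hG
    refine ⟨⟨K, ?_⟩, ⟨B + |d|, fun x => ?_⟩⟩
    · apply LipschitzWith.of_dist_le_mul
      intro a b
      rw [dist_add_right]
      exact hK.dist_le_mul a b
    · exact (abs_add_le _ _).trans (add_le_add (hB x) le_rfl)
  have h1 := hT.lower 0 le_rfl (fun x => G x + d) F hG' hF (fun x => by
    rw [add_zero]; exact h x) x
  rw [hT.const d G hG, add_zero] at h1
  exact h1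

lemma adm_op1 {μ : Measure X} {T : (X → ℝ) → X → ℝ} {C : ℝ≥0} (hT : GoodOp μ T C)
    {F : X × Y → ℝ} (hF : Adm F) : Adm (op1 T F) := by
  obtain ⟨⟨K, hK⟩, ⟨B, hB⟩⟩ := id hF
  refine ⟨⟨C * K + K, ?_⟩, ⟨B, fun p => ?_⟩⟩
  · apply LipschitzWith.of_dist_le_mul
    rintro ⟨x, y⟩ ⟨x', y'⟩
    have hs : ∀ y : Y, LipschitzWith K (fun x => F (x, y)) := by
      intro y
      apply LipschitzWith.of_dist_le_mul
      intro a b
      refine (hK.dist_le_mul _ _).trans ?_
      rw [Prod.dist_eq]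
      simp
    have h1 : dist (op1 T F (x, y)) (op1 T F (x', y)) ≤ (C * K : ℝ≥0) * dist x x' :=
      (hT.lip K _ (adm_fst hF y) (hs y)).dist_le_mul x x'
    have h2 : ∀ (u v : Y), T (fun x => F (x, u)) x' ≤ T (fun x => F (x, v)) x' + K * dist u v := by
      intro u v
      apply op_le hT (adm_fst hF u) (adm_fst hF v)
      intro w
      have h3 := hK.dist_le_mul (w, u) (w, v)
      rw [Prod.dist_eq, Real.dist_eq] at h3
      simp only [dist_self] at h3
      rw [max_eq_right dist_nonneg] at h3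
      have h4 := le_abs_self (F (w, u) - F (w, v))
      linarith
    have h5 : dist (op1 T F (x', y)) (op1 T F (x', y')) ≤ K * dist y y' := by
      rw [Real.dist_eq, abs_le]
      have a1 := h2 y y'
      have a2 := h2 y' y
      rw [dist_comm y' y] at a2
      constructor
      · show -(↑K * dist y y') ≤ T (fun x => F (x, y)) x' - T (fun x => F (x, y')) x'
        linarith
      · show T (fun x => F (x, y)) x' - T (fun x => F (x, y')) x' ≤ ↑K * dist y y'
        linarith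
    have h6 : dist x x' ≤ dist (x, y) (x', y') := by rw [Prod.dist_eq]; exact le_max_left _ _
    have h7 : dist y y' ≤ dist (x, y) (x', y') := by rw [Prod.dist_eq]; exact le_max_right _ _
    calc dist (op1 T F (x, y)) (op1 T F (x', y'))
        ≤ dist (op1 T F (x, y)) (op1 T F (x', y)) + dist (op1 T F (x', y)) (op1 T F (x', y')) :=
          dist_triangle _ _ _
      _ ≤ (C * K : ℝ≥0) * dist (x, y) (x', y') + K * dist (x, y) (x', y') :=
          add_le_add (h1.trans (mul_le_mul_of_nonneg_left h6 (NNReal.coe_nonneg _)))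
            (h5.trans (mul_le_mul_of_nonneg_left h7 (NNReal.coe_nonneg _)))
      _ = ((C * K + K : ℝ≥0) : ℝ) * dist (x, y) (x', y') := by push_cast; ring
  · exact hT.bdd B _ (adm_fst hF p.2) (fun x => hB _) p.1

lemma adm_op2 {μ : Measure X} {T : (X → ℝ) → X → ℝ} {C : ℝ≥0} (hT : GoodOp μ T C)
    {F : Y × X → ℝ} (hF : Adm F) : Adm (op2 T F) :=
  adm_swap (adm_op1 hT (adm_swap hF))

lemma adm_sub_abs {Z : Type} [PseudoMetricSpace Z] {F G : Z → ℝ} (hF : Adm F) (hG : Adm G) :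
    Continuous (fun z => |F z - G z|) ∧ ∃ B, ∀ z, |F z - G z| ≤ B := by
  refine ⟨((adm_cont hF).sub (adm_cont hG)).abs, ?_⟩
  obtain ⟨-, B, hB⟩ := hF
  obtain ⟨-, B', hB'⟩ := hG
  exact ⟨B + B', fun z => (abs_sub _ _).trans (add_le_add (hB z) (hB' z))⟩

lemma integrable_sub_abs {Z : Type} [PseudoMetricSpace Z] [MeasurableSpace Z]
    [OpensMeasurableSpace Z] (ν : Measure Z) [IsFiniteMeasure ν] {F G : Z → ℝ}
    (hF : Adm F) (hG : Adm G) : Integrable (fun z => |F z - G z|) ν := by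
  obtain ⟨h1, B, hB⟩ := adm_sub_abs hF hG
  refine Integrable.mono' (integrable_const B) h1.measurable.aestronglyMeasurable ?_
  exact Eventually.of_forall (fun z => by
    rw [Real.norm_eq_abs, abs_abs]; exact hB z)

end gen

section ngrad

variable {n : ℕ}

lemma measurable_ngrad (f : (Fin n → ℝ) → ℝ) : Measurable (ngrad f) := by
  unfold ngrad
  apply Measurable.sqrt
  apply Finset.measurable_sum
  intro i _
  exact ((measurable_fderiv_apply_const ℝ f _).min measurable_const).pow_const 2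

lemma ngrad_nonneg (f : (Fin n → ℝ) → ℝ) (x : Fin n → ℝ) : 0 ≤ ngrad f x := Real.sqrt_nonneg _

lemma ngrad_bdd {f : (Fin n → ℝ) → ℝ} {K : ℝ≥0} (hf : LipschitzWith K f) (x : Fin n → ℝ) :
    ngrad f x ≤ Real.sqrt (∑ _i : Fin n, (K : ℝ) ^ 2) := by
  unfold ngrad
  apply Real.sqrt_le_sqrt
  apply Finset.sum_le_sum
  intro i _
  have h1 : ‖fderiv ℝ f x (Pi.single i 1)‖ ≤ K := by
    refine (ContinuousLinearMap.le_opNorm _ _).trans ?_
    have h2 := norm_fderiv_le_of_lipschitz ℝ hf (x₀ := x)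
    have h3 : ‖(Pi.single i 1 : Fin n → ℝ)‖ ≤ 1 := by
      rw [pi_norm_le_iff_of_nonneg zero_le_one]
      intro j
      by_cases h : j = i
      · subst h; simp
      · simp [h]
    calc ‖fderiv ℝ f x‖ * ‖(Pi.single i 1 : Fin n → ℝ)‖ ≤ K * 1 :=
          mul_le_mul h2 h3 (norm_nonneg _) (NNReal.coe_nonneg _)
      _ = K := mul_one _
  rw [Real.norm_eq_abs, abs_le] at h1
  have h4 : |min (fderiv ℝ f x (Pi.single i 1)) 0| ≤ |(K : ℝ)| := by
    rw [abs_of_nonneg (NNReal.coe_nonneg K), abs_le]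
    refine ⟨le_min h1.1 (neg_nonpos.mpr (NNReal.coe_nonneg K)), ?_⟩
    exact (min_le_right _ _).trans (NNReal.coe_nonneg K)
  exact sq_le_sq.mpr h4

lemma ngrad_shift (f : (Fin n → ℝ) → ℝ) (a x : Fin n → ℝ) :
    ngrad (fun v => f (v + a)) x = ngrad f (x + a) := by
  unfold ngrad
  rw [fderiv_comp_add_right]

end ngrad

theorem t_CLD : S_PROD → S_L1 → S_CLD := by
  intro _ hL1 X _ _ _ _ _ _ n μ _ T C σ c α β hT hE hC K f hf hfK
  set Φ : X × X → ℝ := fun p => f (σ p.1 + σ p.2) with hΦ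
  have hΦa : Adm Φ := by
    obtain ⟨-, B, hB⟩ := hf
    refine ⟨⟨K * (‖σ‖₊ + ‖σ‖₊), ?_⟩, B, fun p => hB _⟩
    apply hfK.comp
    exact (σ.lipschitz.comp LipschitzWith.prod_fst |>.weaken (by simp)).add
      (σ.lipschitz.comp LipschitzWith.prod_snd |>.weaken (by simp))
  have h1a : Adm (op1 T Φ) := adm_op1 hT hΦa
  have h2a : Adm (op2 T Φ) := adm_op2 hT hΦa
  have h12a : Adm (op2 T (op1 T Φ)) := adm_op2 hT h1a
  -- integrability of ngrad
  have hng : Integrable (fun p : X × X => ngrad f (σ p.1 + σ p.2)) (μ.prod μ) := by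
    refine Integrable.mono' (integrable_const (Real.sqrt (∑ _i : Fin n, (K : ℝ) ^ 2))) ?_ ?_
    · apply Measurable.aestronglyMeasurable
      apply (measurable_ngrad f).comp
      exact ((σ.continuous.comp continuous_fst).add (σ.continuous.comp continuous_snd)).measurable
    · exact Eventually.of_forall (fun p => by
        rw [Real.norm_eq_abs, abs_of_nonneg (ngrad_nonneg _ _)]
        exact ngrad_bdd hfK _)
  -- (C)
  have hCC : ∫ p, |Φ p - op1 T Φ p| ∂(μ.prod μ) ≤
      α * ∫ p : X × X, ngrad f (σ p.1 + σ p.2) ∂(μ.prod μ) + β * K := by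
    rw [integral_prod_symm _ (integrable_sub_abs _ hΦa h1a), integral_prod_symm _ hng]
    have hy : ∀ y : X, ∫ x, |Φ (x, y) - op1 T Φ (x, y)| ∂μ ≤
        α * ∫ x, ngrad f (σ x + σ y) ∂μ + β * K := by
      intro y
      have hfy : Adm (fun v => f (v + σ y)) := by
        obtain ⟨-, B, hB⟩ := hf
        refine ⟨⟨K, ?_⟩, B, fun p => hB _⟩
        apply LipschitzWith.of_dist_le_mul
        intro a b
        refine (hfK.dist_le_mul _ _).trans ?_
        rw [dist_add_right]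
      have hfyK : LipschitzWith K (fun v => f (v + σ y)) := by
        apply LipschitzWith.of_dist_le_mul
        intro a b
        refine (hfK.dist_le_mul _ _).trans ?_
        rw [dist_add_right]
      have h := hC K (fun v => f (v + σ y)) hfy hfyK
      simp only [ngrad_shift] at h
      exact h
    have hi1 : Integrable (fun y => ∫ x, |Φ (x, y) - op1 T Φ (x, y)| ∂μ) μ :=
      (integrable_sub_abs (μ.prod μ) hΦa h1a).integral_prod_right
    have hi2 : Integrable (fun y => ∫ x, ngrad f (σ x + σ y) ∂μ) μ := hng.integral_prod_right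
    calc ∫ y, ∫ x, |Φ (x, y) - op1 T Φ (x, y)| ∂μ ∂μ
        ≤ ∫ y, (α * ∫ x, ngrad f (σ x + σ y) ∂μ + β * K) ∂μ :=
          integral_mono hi1 ((hi2.const_mul α).add (integrable_const _)) hy
      _ = α * ∫ y, ∫ x, ngrad f (σ x + σ y) ∂μ ∂μ + β * K := by
          rw [integral_add (hi2.const_mul α) (integrable_const _), integral_const_mul,
            integral_const]
          simp
  -- (D1)
  have hD : ∫ p, |op1 T Φ p - op2 T Φ p| ∂(μ.prod μ) ≤
      c * ∫ p : X × X, ngrad f (σ p.1 + σ p.2) ∂(μ.prod μ) := hE f hf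
  have hfix : op2 T (op2 T Φ) = op2 T Φ := by
    funext p
    have h1 := hT.fix (T (fun y => Φ (p.1, y))) (adm_snd h2a p.1)
      (hT.mono_out _ (adm_snd hΦa p.1))
    exact congrFun h1 p.2
  have hL : ∫ p, |op2 T Φ p - op2 T (op1 T Φ) p| ∂(μ.prod μ) ≤
      ∫ p, |op1 T Φ p - op2 T Φ p| ∂(μ.prod μ) := by
    have e1 : ∫ p, |op2 T Φ p - op2 T (op1 T Φ) p| ∂(μ.prod μ) =
        ∫ p, |op2 T (op2 T Φ) p - op2 T (op1 T Φ) p| ∂(μ.prod μ) := by rw [hfix]
    have e2 : ∫ p, |op1 T Φ p - op2 T Φ p| ∂(μ.prod μ) =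
        ∫ p, |op2 T Φ p - op1 T Φ p| ∂(μ.prod μ) := by
      congr 1
      funext p
      exact abs_sub_comm _ _
    have hfa : Adm (op2 T (op2 T Φ)) := by rw [hfix]; exact h2a
    rw [e1, e2, integral_prod _ (integrable_sub_abs _ hfa h12a),
      integral_prod _ (integrable_sub_abs _ h2a h1a)]
    refine integral_mono (integrable_sub_abs (μ.prod μ) hfa h12a).integral_prod_left
      (integrable_sub_abs (μ.prod μ) h2a h1a).integral_prod_left ?_
    intro x
    exact hL1 X μ T C hT (fun y => op2 T Φ (x, y)) (fun y => op1 T Φ (x, y))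
      (adm_snd h2a x) (adm_snd h1a x)
  have hsum : ∫ p, |op1 T Φ p - op2 T (op1 T Φ) p| ∂(μ.prod μ) ≤
      2 * c * ∫ p : X × X, ngrad f (σ p.1 + σ p.2) ∂(μ.prod μ) := by
    have h1 : ∫ p, |op1 T Φ p - op2 T (op1 T Φ) p| ∂(μ.prod μ) ≤
        ∫ p, (|op1 T Φ p - op2 T Φ p| + |op2 T Φ p - op2 T (op1 T Φ) p|) ∂(μ.prod μ) := by
      refine integral_mono (integrable_sub_abs _ h1a h12a)
        ((integrable_sub_abs _ h1a h2a).add (integrable_sub_abs _ h2a h12a)) ?_
      intro p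
      exact abs_sub_le _ _ _
    rw [integral_add (integrable_sub_abs _ h1a h2a) (integrable_sub_abs _ h2a h12a)] at h1
    linarith
  -- conclusion
  show ∫ p : X × X, |f (dbl σ p) - prodOp T T (fun u => f (dbl σ u)) p| ∂(μ.prod μ) ≤
    (α + 2 * c) * ∫ p : X × X, ngrad f (dbl σ p) ∂(μ.prod μ) + β * K
  have hfin : ∫ p, |Φ p - op2 T (op1 T Φ) p| ∂(μ.prod μ) ≤
      ∫ p, (|Φ p - op1 T Φ p| + |op1 T Φ p - op2 T (op1 T Φ) p|) ∂(μ.prod μ) := by
    refine integral_mono (integrable_sub_abs _ hΦa h12a)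
      ((integrable_sub_abs _ hΦa h1a).add (integrable_sub_abs _ h1a h12a)) ?_
    intro p
    exact abs_sub_le _ _ _
  rw [integral_add (integrable_sub_abs _ hΦa h1a) (integrable_sub_abs _ h1a h12a)] at hfin
  have hgoal : ∫ p, |Φ p - op2 T (op1 T Φ) p| ∂(μ.prod μ) ≤
      (α + 2 * c) * ∫ p : X × X, ngrad f (σ p.1 + σ p.2) ∂(μ.prod μ) + β * K := by
    linarith
  exact hgoal

end R962.DP
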